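import Pool.Agent.Helper19.NF.Defs

/-!
# The number of announcements (F8)
-/

set_option linter.unusedSectionVars false

namespace Pool.Agent.Helper84.NF

open Pool.Agent.Helper19.NF

/-- The weight of a label: `1 / x` times `K` for type 2, `K ^ m` for type 3. -/
noncomputable def wt {n m : ℕ} (K x : ℝ) (ℓ : Label n m) : ℝ := if ℓ.2.isLeft then K / x else K ^ m

variable {n m : ℕ} [NeZero m]

theorem card_fib_left {ℓ : Label n m} (h : ℓ.2.isLeft) : Nat.card (Fib ℓ) = 1 := by
  have h1 : Nat.card (Fib ℓ) = Nat.card {t : ZMod m // t = 0} :=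
    Nat.card_congr (Equiv.subtypeEquivRight fun t => ⟨fun ht => ht h, fun ht _ => ht⟩)
  rw [h1, Nat.card_unique]

theorem card_fib_right {ℓ : Label n m} (h : ¬ ℓ.2.isLeft) : Nat.card (Fib ℓ) = m := by
  have h1 : Nat.card (Fib ℓ) = Nat.card (ZMod m) :=
    Nat.card_congr ⟨fun t => t.1, fun t => ⟨t, fun h' => absurd h' h⟩, fun _ => rfl, fun _ => rfl⟩
  rw [h1, Nat.card_zmod]

/-- The indices of type 2. -/
abbrev A2 (L : Fin (n - 1) → Label n m) : Type := {a : Fin (n - 1) // (L a).2.isLeft}

/-- The indices of the secrets of type 3. -/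
abbrev I3 (L : Fin (n - 1) → Label n m) : Type := Σ a : {a : Fin (n - 1) // ¬ (L a).2.isLeft}, Fib (L a.1)

/-- The numbers of type 2. -/
def num2 (L : Fin (n - 1) → Label n m) (num : Idx L → ℕ) (a : A2 L) : ℕ := num ⟨a.1, ⟨0, fun _ => rfl⟩⟩

theorem num2_anti {L : Fin (n - 1) → Label n m} {T : ℕ} {num : Idx L → ℕ} (h : Fits L T num) :
    StrictAnti (num2 L num) := fun a b hab => h.2 _ _ a.2 b.2 hab

theorem card_fits_nat (L : Fin (n - 1) → Label n m) (T : ℕ) :
    Nat.card {num : Idx L → ℕ // Fits L T num} ≤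
      T.choose (Fintype.card (A2 L)) * T ^ Fintype.card (I3 L) := by
  classical
  let F : {num : Idx L → ℕ // Fits L T num} →
      (Finset.powersetCard (Fintype.card (A2 L)) (Finset.range T)) × (I3 L → Fin T) := fun num =>
    (⟨Finset.univ.image (num2 L num.1), by
      rw [Finset.mem_powersetCard]
      refine ⟨fun y hy => ?_, ?_⟩
      · obtain ⟨a, _, rfl⟩ := Finset.mem_image.mp hy
        exact Finset.mem_range.mpr (num.2.1 _)
      · rw [Finset.card_image_of_injective _ (num2_anti num.2).injective, Finset.card_univ]⟩,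
      fun y => ⟨num.1 ⟨y.1.1, y.2⟩, num.2.1 _⟩)
  have hF : Function.Injective F := by
    rintro ⟨u, hu⟩ ⟨v, hv⟩ h
    have h1 : Finset.univ.image (num2 L u) = Finset.univ.image (num2 L v) :=
      congrArg Subtype.val (Prod.mk.inj h).1
    have h2 := (Prod.mk.inj h).2
    have h3 : num2 L u = num2 L v := by
      refine (StrictAnti.range_inj (num2_anti hu) (num2_anti hv)).mp ?_
      have := congrArg (fun s : Finset ℕ => (s : Set ℕ)) h1
      simpa using this
    apply Subtype.ext
    funext ⟨a, t⟩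
    by_cases ha : (L a).2.isLeft
    · have ht : t = ⟨0, fun _ => rfl⟩ := Subtype.ext (t.2 ha)
      rw [ht]
      exact congrFun h3 ⟨a, ha⟩
    · have := congrFun h2 ⟨⟨a, ha⟩, t⟩
      exact congrArg Fin.val this
  have h := Nat.card_le_card_of_injective F hF
  refine h.trans_eq ?_
  rw [Nat.card_prod, Nat.card_eq_fintype_card, Fintype.card_coe, Finset.card_powersetCard, Finset.card_range,
    Nat.card_eq_fintype_card, Fintype.card_fun, Fintype.card_fin]

theorem card_I3 (L : Fin (n - 1) → Label n m) :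
    Fintype.card (I3 L) = m * Fintype.card {a : Fin (n - 1) // ¬ (L a).2.isLeft} := by
  rw [Fintype.card_sigma]
  have : ∀ a : {a : Fin (n - 1) // ¬ (L a).2.isLeft}, Fintype.card (Fib (L a.1)) = m := fun a => by
    rw [← Nat.card_eq_fintype_card, card_fib_right a.2]
  rw [Finset.sum_congr rfl fun a _ => this a, Finset.sum_const, Finset.card_univ, smul_eq_mul, mul_comm]

theorem prod_eq (L : Fin (n - 1) → Label n m) (T k : ℕ) (hk : 0 < k) (x : ℝ) :
    (∏ a, wt ((T : ℝ) / k) x (L a)) * (k : ℝ) ^ Fintype.card (Idx L) =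
      ((T : ℝ) / x) ^ Fintype.card (A2 L) * (T : ℝ) ^ Fintype.card (I3 L) := by
  have hk' : (k : ℝ) ≠ 0 := by positivity
  have h1 : Fintype.card (Idx L) = ∑ a, Fintype.card (Fib (L a)) := Fintype.card_sigma
  rw [h1, ← Finset.prod_pow_eq_pow_sum, ← Finset.prod_mul_distrib]
  have h2 : ∀ a, wt ((T : ℝ) / k) x (L a) * (k : ℝ) ^ Fintype.card (Fib (L a)) =
      if (L a).2.isLeft then (T : ℝ) / x else (T : ℝ) ^ m := by
    intro a
    rw [← Nat.card_eq_fintype_card]
    unfold wt
    split_ifs with h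
    · rw [card_fib_left h, pow_one]
      field_simp
    · rw [card_fib_right h, div_pow, div_mul_cancel₀ _ (pow_ne_zero _ hk')]
  rw [Finset.prod_congr rfl fun a _ => h2 a, Finset.prod_ite, Finset.prod_const, Finset.prod_const, card_I3]
  congr 1
  · rw [Fintype.card_subtype]
  · rw [← pow_mul, Fintype.card_subtype]

/-- F8: the number of possible announcements, divided by `k` to the number of the secrets. -/
theorem card_fits (L : Fin (n - 1) → Label n m) (T k : ℕ) (hk : 0 < k) (x : ℝ) (hx : 0 < x) :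
    (Nat.card {num : Idx L → ℕ // Fits L T num} : ℝ) ≤
      Real.exp x * (∏ a, wt ((T : ℝ) / k) x (L a)) * (k : ℝ) ^ Fintype.card (Idx L) := by
  rw [mul_assoc, prod_eq L T k hk x, ← mul_assoc]
  have h1 : (Nat.card {num : Idx L → ℕ // Fits L T num} : ℝ) ≤
      (T.choose (Fintype.card (A2 L)) : ℝ) * (T : ℝ) ^ Fintype.card (I3 L) := by
    exact_mod_cast card_fits_nat L T
  refine h1.trans (mul_le_mul_of_nonneg_right ?_ (by positivity))
  set a := Fintype.card (A2 L)
  have h2 : (T.choose a : ℝ) ≤ (T : ℝ) ^ a / (a.factorial : ℝ) := Nat.choose_le_pow_div a T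
  have h3 : x ^ a / (a.factorial : ℝ) ≤ Real.exp x := Real.pow_div_factorial_le_exp x hx.le a
  refine h2.trans ?_
  calc (T : ℝ) ^ a / (a.factorial : ℝ) = (x ^ a / (a.factorial : ℝ)) * ((T : ℝ) / x) ^ a := by
        rw [div_pow]
        field_simp
    _ ≤ Real.exp x * ((T : ℝ) / x) ^ a := mul_le_mul_of_nonneg_right h3 (by positivity)

end Pool.Agent.Helper84.NF
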